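import Pool.Agent.H36.ES.HSQ
import Pool.Agent.H93.ES.Targets

/-! (HFC) the exponential moment of the square of the mean of a sample. -/

set_option autoImplicit false

namespace Pool.Agent.H36.ES

open Finset Pool.Agent.H93.ES

theorem pf_HFC : T_HFC := by
  intro R D y κ hD hκ0 hκ hy
  have : NeZero D := ⟨by omega⟩
  rcases Nat.eq_zero_or_pos R with hR | hR
  · subst hR
    have h0 : 1000 * κ ≤ 0 := by simpa using hκ
    have h1 : κ = 0 := le_antisymm (by linarith) hκ0
    subst h1
    unfold avE
    simp
  · have hR' : (0 : ℝ) < R := by exact_mod_cast hR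
    have h := hsq y 3 κ (by norm_num) hR hy hκ0 (by
      rw [le_div_iff₀ (by norm_num)]
      nlinarith)
    rw [Fintype.card_fin] at h
    unfold avE
    refine h.trans ?_
    have := (Real.exp_pos (2 * κ * ‖(∑ r, (∑ e, y r e) / (D : ℂ)) / (R : ℂ)‖ ^ 2)).le
    linarith

end Pool.Agent.H36.ES
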