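import Pool.Agent.H36.ES.HSQ
import Pool.Agent.H93.ES.Targets

/-! (HFT) the tail of the mean of a sample. -/

set_option autoImplicit false

namespace Pool.Agent.H36.ES

open Finset Pool.Agent.H93.ES Pool.Agent.H93

open Classical in
/-- one side of Hoeffding's inequality for tuples -/
theorem tail_one {ι : Type*} [Fintype ι] {R : ℕ} (t : Fin R → ι → ℝ) (B s σ : ℝ)
    (hB : 0 < B) (hR : 0 < R) (hs : 0 ≤ s) (hσ : σ ^ 2 = 1) (h1 : ∀ r e, |t r e| ≤ B)
    (h2 : ∀ r, ∑ e, t r e = 0) :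
    ∑ d : Fin R → ι, (if s ≤ σ * ((∑ r, t r (d r)) / R) then (1 : ℝ) else 0) ≤
      (Fintype.card ι : ℝ) ^ R * Real.exp (-(s ^ 2 * R / (2 * B ^ 2))) := by
  have hR' : (0 : ℝ) < R := by exact_mod_cast hR
  -- the exponent
  set lam : ℝ := s * R / B ^ 2 with hlam
  have hl0 : 0 ≤ lam := by positivity
  have h3 := mgfR t B (σ * lam / R) hB h1 h2
  have h4 : ∀ d : Fin R → ι, (if s ≤ σ * ((∑ r, t r (d r)) / R) then (1 : ℝ) else 0) ≤
      Real.exp (-(lam * s)) * Real.exp (σ * lam / R * ∑ r, t r (d r)) := by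
    intro d
    split_ifs with h
    · rw [← Real.exp_add]
      apply Real.one_le_exp
      have h5 := mul_le_mul_of_nonneg_left h hl0
      have h6 : σ * lam / R * ∑ r, t r (d r) = lam * (σ * ((∑ r, t r (d r)) / R)) := by
        field_simp
      rw [h6]
      linarith
    · positivity
  calc ∑ d : Fin R → ι, (if s ≤ σ * ((∑ r, t r (d r)) / R) then (1 : ℝ) else 0)
      ≤ ∑ d : Fin R → ι, Real.exp (-(lam * s)) * Real.exp (σ * lam / R * ∑ r, t r (d r)) :=
        Finset.sum_le_sum fun d _ => h4 d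
    _ = Real.exp (-(lam * s)) * ∑ d : Fin R → ι, Real.exp (σ * lam / R * ∑ r, t r (d r)) := by
        rw [Finset.mul_sum]
    _ ≤ Real.exp (-(lam * s)) *
        ((Fintype.card ι : ℝ) ^ R * Real.exp (R * ((σ * lam / R) ^ 2 * B ^ 2 / 2))) :=
        mul_le_mul_of_nonneg_left h3 (Real.exp_pos _).le
    _ = (Fintype.card ι : ℝ) ^ R * Real.exp (-(s ^ 2 * R / (2 * B ^ 2))) := by
        rw [mul_left_comm, ← Real.exp_add]
        congr 2
        have h7 : (σ * lam / R) ^ 2 = lam ^ 2 / R ^ 2 := by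
          rw [div_pow, mul_pow, hσ, one_mul]
        rw [h7, hlam]
        field_simp
        ring

theorem pf_HFT : T_HFT := by
  classical
  intro R D y δ hD hδ hy
  have : NeZero D := ⟨by omega⟩
  have hD' : (0 : ℝ) < D := by exact_mod_cast hD
  have hDc : (D : ℂ) ≠ 0 := by exact_mod_cast hD'.ne'
  rcases Nat.eq_zero_or_pos R with hR | hR
  · subst hR
    unfold avE EB.ind
    simp [not_le.2 hδ]
  have hR' : (0 : ℝ) < R := by exact_mod_cast hR
  set μ : Fin R → ℂ := fun r => (∑ e, y r e) / (D : ℂ) with hμ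
  have hμb : ∀ r, ‖μ r‖ ≤ 2 := by
    intro r
    rw [hμ]
    simp only
    rw [norm_div, Complex.norm_natCast, div_le_iff₀ hD']
    calc ‖∑ e, y r e‖ ≤ ∑ e, ‖y r e‖ := norm_sum_le _ _
      _ ≤ ∑ _e : Fin D, (2 : ℝ) := Finset.sum_le_sum fun e _ => hy r e
      _ = 2 * D := by simp [mul_comm]
  have hzb : ∀ r e, ‖y r e - μ r‖ ≤ 4 := by
    intro r e
    calc ‖y r e - μ r‖ ≤ ‖y r e‖ + ‖μ r‖ := norm_sub_le _ _
      _ ≤ 4 := by linarith [hy r e, hμb r]
  have hz0 : ∀ r, ∑ e, (y r e - μ r) = 0 := by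
    intro r
    rw [Finset.sum_sub_distrib, Finset.sum_const, Finset.card_univ, nsmul_eq_mul, hμ]
    simp only [Fintype.card_fin]
    field_simp
    ring
  have hkey : ∀ d : Fin R → Fin D, (∑ r, y r (d r)) / (R : ℂ) - (∑ r, μ r) / (R : ℂ) =
      (∑ r, (y r (d r) - μ r)) / R := by
    intro d
    rw [← sub_div, ← Finset.sum_sub_distrib]
  set s : ℝ := δ / √2 with hs
  have hs0 : 0 ≤ s := by positivity
  have hs2 : s ^ 2 = δ ^ 2 / 2 := by
    rw [hs, div_pow, Real.sq_sqrt (by norm_num)]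
  have hre0 : ∀ r, ∑ e, (y r e - μ r).re = 0 := fun r => by
    have := congrArg Complex.re (hz0 r)
    rw [Complex.re_sum] at this
    exact this
  have him0 : ∀ r, ∑ e, (y r e - μ r).im = 0 := fun r => by
    have := congrArg Complex.im (hz0 r)
    rw [Complex.im_sum] at this
    exact this
  have hreb : ∀ r e, |(y r e - μ r).re| ≤ 4 := fun r e =>
    (Complex.abs_re_le_norm _).trans (hzb r e)
  have himb : ∀ r e, |(y r e - μ r).im| ≤ 4 := fun r e =>
    (Complex.abs_im_le_norm _).trans (hzb r e)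
  have t1 := tail_one (fun r e => (y r e - μ r).re) 4 s 1 (by norm_num) hR hs0 (by norm_num)
    hreb hre0
  have t2 := tail_one (fun r e => (y r e - μ r).re) 4 s (-1) (by norm_num) hR hs0 (by norm_num)
    hreb hre0
  have t3 := tail_one (fun r e => (y r e - μ r).im) 4 s 1 (by norm_num) hR hs0 (by norm_num)
    himb him0
  have t4 := tail_one (fun r e => (y r e - μ r).im) 4 s (-1) (by norm_num) hR hs0 (by norm_num)
    himb him0
  have hexp : -(s ^ 2 * R / (2 * (4 : ℝ) ^ 2)) = -(δ ^ 2 * R / 64) := by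
    rw [hs2]; ring
  rw [hexp, Fintype.card_fin] at t1 t2 t3 t4
  have hpt : ∀ d : Fin R → Fin D,
      EB.ind (δ ≤ ‖(∑ r, y r (d r)) / (R : ℂ) - (∑ r, μ r) / (R : ℂ)‖) ≤
      ((if s ≤ 1 * ((∑ r, (y r (d r) - μ r).re) / R) then (1 : ℝ) else 0) +
        (if s ≤ -1 * ((∑ r, (y r (d r) - μ r).re) / R) then (1 : ℝ) else 0)) +
      ((if s ≤ 1 * ((∑ r, (y r (d r) - μ r).im) / R) then (1 : ℝ) else 0) +
        (if s ≤ -1 * ((∑ r, (y r (d r) - μ r).im) / R) then (1 : ℝ) else 0)) := by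
    intro d
    rw [hkey]
    set w : ℂ := (∑ r, (y r (d r) - μ r)) / (R : ℂ) with hw
    have a1 : w.re = (∑ r, (y r (d r) - μ r).re) / R := by
      rw [hw, Complex.div_natCast_re, Complex.re_sum]
    have a2 : w.im = (∑ r, (y r (d r) - μ r).im) / R := by
      rw [hw, Complex.div_natCast_im, Complex.im_sum]
    rw [← a1, ← a2]
    unfold EB.ind
    by_cases hc : δ ≤ ‖w‖
    · rw [if_pos hc]
      have a4 : ‖w‖ ^ 2 = w.re ^ 2 + w.im ^ 2 := by
        rw [Complex.sq_norm, Complex.normSq_apply]; ring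
      have a5 : δ ^ 2 ≤ w.re ^ 2 + w.im ^ 2 := by
        rw [← a4]
        exact pow_le_pow_left₀ hδ.le hc 2
      have a6 : s ≤ |w.re| ∨ s ≤ |w.im| := by
        by_contra hcon
        push Not at hcon
        have b1 : w.re ^ 2 < s ^ 2 := by
          rw [← sq_abs w.re]
          exact pow_lt_pow_left₀ hcon.1 (abs_nonneg _) (by norm_num)
        have b2 : w.im ^ 2 < s ^ 2 := by
          rw [← sq_abs w.im]
          exact pow_lt_pow_left₀ hcon.2 (abs_nonneg _) (by norm_num)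
        rw [hs2] at b1 b2
        linarith
      have key : ∀ v : ℝ, s ≤ |v| → (1 : ℝ) ≤ (if s ≤ 1 * v then (1 : ℝ) else 0) +
          (if s ≤ -1 * v then (1 : ℝ) else 0) := by
        intro v hv
        rcases le_abs.1 hv with h | h
        · rw [if_pos (by linarith : s ≤ 1 * v)]
          split_ifs <;> norm_num
        · rw [if_pos (by linarith : s ≤ -1 * v)]
          split_ifs <;> norm_num
      have nn : ∀ v : ℝ, (0 : ℝ) ≤ (if s ≤ 1 * v then (1 : ℝ) else 0) +
          (if s ≤ -1 * v then (1 : ℝ) else 0) := by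
        intro v
        split_ifs <;> norm_num
      rcases a6 with h | h
      · linarith [key _ h, nn w.im]
      · linarith [key _ h, nn w.re]
    · rw [if_neg hc]
      split_ifs <;> norm_num
  unfold avE
  rw [div_le_iff₀ (by positivity)]
  calc ∑ d : Fin R → Fin D, EB.ind (δ ≤ ‖(∑ r, y r (d r)) / (R : ℂ) - (∑ r, μ r) / (R : ℂ)‖)
      ≤ ∑ d : Fin R → Fin D,
      (((if s ≤ 1 * ((∑ r, (y r (d r) - μ r).re) / R) then (1 : ℝ) else 0) +
        (if s ≤ -1 * ((∑ r, (y r (d r) - μ r).re) / R) then (1 : ℝ) else 0)) +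
      ((if s ≤ 1 * ((∑ r, (y r (d r) - μ r).im) / R) then (1 : ℝ) else 0) +
        (if s ≤ -1 * ((∑ r, (y r (d r) - μ r).im) / R) then (1 : ℝ) else 0))) :=
        Finset.sum_le_sum fun d _ => hpt d
    _ ≤ 4 * Real.exp (-(δ ^ 2 * R / 64)) * (D : ℝ) ^ R := by
        rw [Finset.sum_add_distrib, Finset.sum_add_distrib, Finset.sum_add_distrib]
        linarith

end Pool.Agent.H36.ES
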