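import Mathlib

/-!
# Squares of means of independent bounded variables: exponential moments

The analytic step of the decoupling of tuples of words (MP_c59857_nt).
-/

set_option autoImplicit false

namespace Pool.Agent.H36.ES

open Finset

/-- Hoeffding's lemma for a uniform variable on a finite set -/
theorem mgf1 {ι : Type*} [Fintype ι] (t : ι → ℝ) (B lam : ℝ) (hB : 0 < B)
    (h1 : ∀ r, |t r| ≤ B) (h2 : ∑ r, t r = 0) :
    ∑ r, Real.exp (lam * t r) ≤ Fintype.card ι * Real.exp (lam ^ 2 * B ^ 2 / 2) := by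
  calc ∑ r, Real.exp (lam * t r)
      ≤ ∑ r, (Real.cosh (lam * B) + t r * (Real.sinh (lam * B) / B)) := by
        refine Finset.sum_le_sum fun r _ => ?_
        have h3 : |t r / B| ≤ 1 := by
          rw [abs_div, abs_of_pos hB, div_le_one hB]
          exact h1 r
        have h4 := Real.exp_mul_le_cosh_add_mul_sinh h3 (lam * B)
        have h5 : t r / B * (lam * B) = lam * t r := by
          field_simp
        rw [h5] at h4
        refine h4.trans (le_of_eq ?_)
        ring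
    _ = Fintype.card ι * Real.cosh (lam * B) := by
        rw [Finset.sum_add_distrib, ← Finset.sum_mul, h2]
        simp
    _ ≤ Fintype.card ι * Real.exp (lam ^ 2 * B ^ 2 / 2) := by
        refine mul_le_mul_of_nonneg_left ?_ (Nat.cast_nonneg _)
        refine (Real.cosh_le_exp_half_sq _).trans (le_of_eq ?_)
        congr 1
        ring

/-- the sum over tuples of a product -/
theorem sum_tuple_prod {ι : Type*} [Fintype ι] [DecidableEq ι] {R : ℕ} (f : Fin R → ι → ℝ) :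
    ∑ d : Fin R → ι, ∏ r, f r (d r) = ∏ r, ∑ e, f r e := by
  rw [Finset.prod_univ_sum]
  simp

/-- the exponential moments of sums of independent variables -/
theorem mgfR {ι : Type*} [Fintype ι] [DecidableEq ι] {R : ℕ} (t : Fin R → ι → ℝ) (B lam : ℝ)
    (hB : 0 < B) (h1 : ∀ r e, |t r e| ≤ B) (h2 : ∀ r, ∑ e, t r e = 0) :
    ∑ d : Fin R → ι, Real.exp (lam * ∑ r, t r (d r)) ≤
      (Fintype.card ι : ℝ) ^ R * Real.exp (R * (lam ^ 2 * B ^ 2 / 2)) := by
  calc ∑ d : Fin R → ι, Real.exp (lam * ∑ r, t r (d r))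
      = ∑ d : Fin R → ι, ∏ r, Real.exp (lam * t r (d r)) := by
        refine Finset.sum_congr rfl fun d _ => ?_
        rw [← Real.exp_sum, Finset.mul_sum]
    _ = ∏ r, ∑ e, Real.exp (lam * t r e) := sum_tuple_prod fun r e => Real.exp (lam * t r e)
    _ ≤ ∏ _r : Fin R, ((Fintype.card ι : ℝ) * Real.exp (lam ^ 2 * B ^ 2 / 2)) := by
        refine Finset.prod_le_prod (fun r _ => Finset.sum_nonneg fun e _ => (Real.exp_pos _).le)
          fun r _ => ?_
        exact mgf1 (t r) B lam hB (h1 r) (h2 r)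
    _ = (Fintype.card ι : ℝ) ^ R * Real.exp (R * (lam ^ 2 * B ^ 2 / 2)) := by
        rw [Finset.prod_const, mul_pow, ← Real.exp_nat_mul]
        simp

/-- the Gaussian integral with a linear term -/
theorem gauss_shift (c : ℝ) :
    MeasureTheory.Integrable (fun x : ℝ => Real.exp (-x ^ 2 + 2 * c * x)) ∧
      ∫ x : ℝ, Real.exp (-x ^ 2 + 2 * c * x) = √Real.pi * Real.exp (c ^ 2) := by
  have h0 : ∀ x : ℝ, Real.exp (-x ^ 2 + 2 * c * x) =
      Real.exp (c ^ 2) * Real.exp (-1 * (x - c) ^ 2) := by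
    intro x
    rw [← Real.exp_add]
    congr 1
    ring
  have h1 : MeasureTheory.Integrable (fun x : ℝ => Real.exp (-1 * (x - c) ^ 2)) :=
    (integrable_exp_neg_mul_sq (b := 1) one_pos).comp_sub_right c
  constructor
  · simp_rw [h0]
    exact h1.const_mul _
  · simp_rw [h0]
    rw [MeasureTheory.integral_const_mul]
    have h2 := MeasureTheory.integral_sub_right_eq_self
      (μ := MeasureTheory.volume) (fun x : ℝ => Real.exp (-1 * x ^ 2)) c
    rw [h2, integral_gaussian]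
    rw [div_one, mul_comm]

/-- the exponential moments of the square of a mean -/
theorem sq_real {ι : Type*} [Fintype ι] [DecidableEq ι] {R : ℕ} (t : Fin R → ι → ℝ) (B κ : ℝ)
    (hB : 0 < B) (hR : 0 < R) (h1 : ∀ r e, |t r e| ≤ B) (h2 : ∀ r, ∑ e, t r e = 0)
    (hκ0 : 0 ≤ κ) (hκ : κ ≤ 3 * R / (8 * B ^ 2)) :
    ∑ d : Fin R → ι, Real.exp (κ * ((∑ r, t r (d r)) / R) ^ 2) ≤
      2 * (Fintype.card ι : ℝ) ^ R := by
  have hR' : (0 : ℝ) < R := by exact_mod_cast hR
  have hpi : 0 < √Real.pi := Real.sqrt_pos.2 Real.pi_pos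
  set S : (Fin R → ι) → ℝ := fun d => (∑ r, t r (d r)) / R with hS
  have e1 : ∀ d : Fin R → ι, Real.exp (κ * S d ^ 2) =
      (√Real.pi)⁻¹ * ∫ x : ℝ, Real.exp (-x ^ 2 + 2 * (√κ * S d) * x) := by
    intro d
    rw [(gauss_shift _).2, ← mul_assoc, inv_mul_cancel₀ hpi.ne', one_mul, mul_pow,
      Real.sq_sqrt hκ0]
  have e2 : ∑ d : Fin R → ι, Real.exp (κ * S d ^ 2) =
      (√Real.pi)⁻¹ * ∫ x : ℝ, ∑ d : Fin R → ι, Real.exp (-x ^ 2 + 2 * (√κ * S d) * x) := by
    rw [MeasureTheory.integral_finsetSum _ fun d _ => (gauss_shift _).1, Finset.mul_sum]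
    exact Finset.sum_congr rfl fun d _ => e1 d
  have e3 : ∀ x : ℝ, ∑ d : Fin R → ι, Real.exp (-x ^ 2 + 2 * (√κ * S d) * x) ≤
      (Fintype.card ι : ℝ) ^ R * Real.exp (-(1 / 4) * x ^ 2) := by
    intro x
    have f1 : ∀ d : Fin R → ι, Real.exp (-x ^ 2 + 2 * (√κ * S d) * x) =
        Real.exp (-x ^ 2) * Real.exp (2 * √κ * x / R * ∑ r, t r (d r)) := by
      intro d
      rw [← Real.exp_add]
      congr 1
      rw [hS]
      field_simp
    simp_rw [f1]
    rw [← Finset.mul_sum]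
    have f2 := mgfR t B (2 * √κ * x / R) hB h1 h2
    have f3 : (R : ℝ) * ((2 * √κ * x / R) ^ 2 * B ^ 2 / 2) ≤ 3 / 4 * x ^ 2 := by
      have g1 : (R : ℝ) * ((2 * √κ * x / R) ^ 2 * B ^ 2 / 2) = (κ * (2 * B ^ 2 / R)) * x ^ 2 := by
        have g2 : (2 * √κ * x / R) ^ 2 = 4 * κ * x ^ 2 / R ^ 2 := by
          rw [div_pow, mul_pow, mul_pow, Real.sq_sqrt hκ0]; ring
        rw [g2]
        field_simp
        ring
      rw [g1]
      apply mul_le_mul_of_nonneg_right _ (sq_nonneg x)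
      calc κ * (2 * B ^ 2 / R) ≤ 3 * R / (8 * B ^ 2) * (2 * B ^ 2 / R) :=
            mul_le_mul_of_nonneg_right hκ (by positivity)
        _ = 3 / 4 := by field_simp; norm_num
    calc Real.exp (-x ^ 2) * ∑ d : Fin R → ι, Real.exp (2 * √κ * x / R * ∑ r, t r (d r))
        ≤ Real.exp (-x ^ 2) * ((Fintype.card ι : ℝ) ^ R *
            Real.exp (R * ((2 * √κ * x / R) ^ 2 * B ^ 2 / 2))) :=
          mul_le_mul_of_nonneg_left f2 (Real.exp_pos _).le
      _ ≤ Real.exp (-x ^ 2) * ((Fintype.card ι : ℝ) ^ R * Real.exp (3 / 4 * x ^ 2)) := by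
          gcongr
      _ = (Fintype.card ι : ℝ) ^ R * Real.exp (-(1 / 4) * x ^ 2) := by
          rw [mul_left_comm, ← Real.exp_add]
          congr 2
          ring
  have e4 : ∫ x : ℝ, ∑ d : Fin R → ι, Real.exp (-x ^ 2 + 2 * (√κ * S d) * x) ≤
      ∫ x : ℝ, (Fintype.card ι : ℝ) ^ R * Real.exp (-(1 / 4) * x ^ 2) := by
    refine MeasureTheory.integral_mono
      (MeasureTheory.integrable_finsetSum _ fun d _ => (gauss_shift _).1)
      ((integrable_exp_neg_mul_sq (b := 1 / 4) (by norm_num)).const_mul _) e3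
  have e5 : ∫ x : ℝ, (Fintype.card ι : ℝ) ^ R * Real.exp (-(1 / 4) * x ^ 2) =
      (Fintype.card ι : ℝ) ^ R * (2 * √Real.pi) := by
    rw [MeasureTheory.integral_const_mul, integral_gaussian]
    congr 1
    have : Real.pi / (1 / 4) = 2 ^ 2 * Real.pi := by ring
    rw [this, Real.sqrt_mul (by norm_num), Real.sqrt_sq (by norm_num)]
  calc ∑ d : Fin R → ι, Real.exp (κ * S d ^ 2)
      ≤ (√Real.pi)⁻¹ * ((Fintype.card ι : ℝ) ^ R * (2 * √Real.pi)) := by
        rw [e2]
        rw [e5] at e4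
        exact mul_le_mul_of_nonneg_left e4 (by positivity)
    _ = 2 * (Fintype.card ι : ℝ) ^ R := by
        field_simp

/-- the exponential moments of the square of the mean of independent bounded variables -/
theorem hsq {ι : Type*} [Fintype ι] [Nonempty ι] {R : ℕ} (y : Fin R → ι → ℂ) (B κ : ℝ)
    (hB : 0 < B) (hR : 0 < R) (h1 : ∀ r e, ‖y r e‖ ≤ B) (hκ0 : 0 ≤ κ)
    (hκ : κ ≤ 3 * R / (128 * B ^ 2)) :
    (∑ d : Fin R → ι, Real.exp (κ * ‖(∑ r, y r (d r)) / R‖ ^ 2)) / (Fintype.card ι : ℝ) ^ R ≤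
      2 * Real.exp (2 * κ * ‖(∑ r, (∑ e, y r e) / (Fintype.card ι : ℂ)) / R‖ ^ 2) := by
  classical
  have hR' : (0 : ℝ) < R := by exact_mod_cast hR
  have hc : (0 : ℝ) < Fintype.card ι := by exact_mod_cast Fintype.card_pos
  have hc' : (Fintype.card ι : ℂ) ≠ 0 := by exact_mod_cast Fintype.card_pos.ne'
  rw [div_le_iff₀ (by positivity)]
  set μ : Fin R → ℂ := fun r => (∑ e, y r e) / (Fintype.card ι : ℂ) with hμ
  set m : ℂ := (∑ r, μ r) / R with hm
  have hμb : ∀ r, ‖μ r‖ ≤ B := by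
    intro r
    rw [hμ]
    simp only
    rw [norm_div, Complex.norm_natCast, div_le_iff₀ hc]
    calc ‖∑ e, y r e‖ ≤ ∑ e, ‖y r e‖ := norm_sum_le _ _
      _ ≤ ∑ _e : ι, B := Finset.sum_le_sum fun e _ => h1 r e
      _ = B * Fintype.card ι := by simp [mul_comm]
  have hzb : ∀ r e, ‖y r e - μ r‖ ≤ 2 * B := by
    intro r e
    calc ‖y r e - μ r‖ ≤ ‖y r e‖ + ‖μ r‖ := norm_sub_le _ _
      _ ≤ 2 * B := by linarith [h1 r e, hμb r]
  have hz0 : ∀ r, ∑ e, (y r e - μ r) = 0 := by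
    intro r
    rw [Finset.sum_sub_distrib, Finset.sum_const, Finset.card_univ, nsmul_eq_mul, hμ]
    simp only
    field_simp
    ring
  have hkey : ∀ d : Fin R → ι, (∑ r, y r (d r)) / (R : ℂ) =
      (∑ r, (y r (d r) - μ r)) / R + m := by
    intro d
    rw [hm, ← add_div]
    congr 1
    rw [← Finset.sum_add_distrib]
    exact Finset.sum_congr rfl fun r _ => by ring
  have hpt : ∀ d : Fin R → ι, Real.exp (κ * ‖(∑ r, y r (d r)) / (R : ℂ)‖ ^ 2) ≤
      Real.exp (2 * κ * ‖m‖ ^ 2) *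
        ((Real.exp (4 * κ * ((∑ r, (y r (d r) - μ r).re) / R) ^ 2) +
          Real.exp (4 * κ * ((∑ r, (y r (d r) - μ r).im) / R) ^ 2)) / 2) := by
    intro d
    rw [hkey]
    set w : ℂ := (∑ r, (y r (d r) - μ r)) / (R : ℂ) with hw
    have a1 : w.re = (∑ r, (y r (d r) - μ r).re) / R := by
      rw [hw, Complex.div_natCast_re, Complex.re_sum]
    have a2 : w.im = (∑ r, (y r (d r) - μ r).im) / R := by
      rw [hw, Complex.div_natCast_im, Complex.im_sum]
    rw [← a1, ← a2]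
    have a3 : ‖w + m‖ ^ 2 ≤ 2 * ‖w‖ ^ 2 + 2 * ‖m‖ ^ 2 := by
      have b1 := norm_add_le w m
      have b2 := norm_nonneg (w + m)
      nlinarith [sq_nonneg (‖w‖ - ‖m‖)]
    have a4 : ‖w‖ ^ 2 = w.re ^ 2 + w.im ^ 2 := by
      rw [Complex.sq_norm, Complex.normSq_apply]; ring
    calc Real.exp (κ * ‖w + m‖ ^ 2)
        ≤ Real.exp (2 * κ * ‖m‖ ^ 2 + (2 * κ * w.re ^ 2 + 2 * κ * w.im ^ 2)) := by
          apply Real.exp_le_exp.2
          have := mul_le_mul_of_nonneg_left a3 hκ0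
          rw [a4] at this
          linarith
      _ = Real.exp (2 * κ * ‖m‖ ^ 2) *
          (Real.exp (2 * κ * w.re ^ 2) * Real.exp (2 * κ * w.im ^ 2)) := by
          rw [Real.exp_add, Real.exp_add]
      _ ≤ Real.exp (2 * κ * ‖m‖ ^ 2) *
          ((Real.exp (4 * κ * w.re ^ 2) + Real.exp (4 * κ * w.im ^ 2)) / 2) := by
          apply mul_le_mul_of_nonneg_left _ (Real.exp_pos _).le
          have b1 : Real.exp (4 * κ * w.re ^ 2) = Real.exp (2 * κ * w.re ^ 2) ^ 2 := by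
            rw [← Real.exp_nat_mul]; congr 1; push_cast; ring
          have b2 : Real.exp (4 * κ * w.im ^ 2) = Real.exp (2 * κ * w.im ^ 2) ^ 2 := by
            rw [← Real.exp_nat_mul]; congr 1; push_cast; ring
          rw [b1, b2]
          nlinarith [sq_nonneg (Real.exp (2 * κ * w.re ^ 2) - Real.exp (2 * κ * w.im ^ 2))]
  have hκ4 : 4 * κ ≤ 3 * R / (8 * (2 * B) ^ 2) := by
    calc 4 * κ ≤ 4 * (3 * R / (128 * B ^ 2)) := by linarith
      _ = 3 * R / (8 * (2 * B) ^ 2) := by field_simp; ring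
  have hre := sq_real (fun r e => (y r e - μ r).re) (2 * B) (4 * κ) (by positivity) hR
    (fun r e => (Complex.abs_re_le_norm _).trans (hzb r e))
    (fun r => by
      have := congrArg Complex.re (hz0 r)
      rw [Complex.re_sum] at this
      exact this) (by positivity) hκ4
  have him := sq_real (fun r e => (y r e - μ r).im) (2 * B) (4 * κ) (by positivity) hR
    (fun r e => (Complex.abs_im_le_norm _).trans (hzb r e))
    (fun r => by
      have := congrArg Complex.im (hz0 r)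
      rw [Complex.im_sum] at this
      exact this) (by positivity) hκ4
  calc ∑ d : Fin R → ι, Real.exp (κ * ‖(∑ r, y r (d r)) / (R : ℂ)‖ ^ 2)
      ≤ ∑ d : Fin R → ι, Real.exp (2 * κ * ‖m‖ ^ 2) *
        ((Real.exp (4 * κ * ((∑ r, (y r (d r) - μ r).re) / R) ^ 2) +
          Real.exp (4 * κ * ((∑ r, (y r (d r) - μ r).im) / R) ^ 2)) / 2) :=
        Finset.sum_le_sum fun d _ => hpt d
    _ = Real.exp (2 * κ * ‖m‖ ^ 2) *
        ((∑ d : Fin R → ι, Real.exp (4 * κ * ((∑ r, (y r (d r) - μ r).re) / R) ^ 2) +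
          ∑ d : Fin R → ι, Real.exp (4 * κ * ((∑ r, (y r (d r) - μ r).im) / R) ^ 2)) / 2) := by
        rw [← Finset.mul_sum, ← Finset.sum_div, Finset.sum_add_distrib]
    _ ≤ Real.exp (2 * κ * ‖m‖ ^ 2) * ((2 * (Fintype.card ι : ℝ) ^ R +
          2 * (Fintype.card ι : ℝ) ^ R) / 2) := by
        apply mul_le_mul_of_nonneg_left _ (Real.exp_pos _).le
        apply div_le_div_of_nonneg_right _ (by norm_num)
        exact add_le_add hre him
    _ = 2 * Real.exp (2 * κ * ‖m‖ ^ 2) * (Fintype.card ι : ℝ) ^ R := by ring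

end Pool.Agent.H36.ES
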